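import Pool.Agent.Helper33.SS.Dim

/-!
# Closed sets of dimension at most one in affine space
-/

set_option autoImplicit false

namespace Pool.Agent.Helper33.SS

open MvPolynomial

/-- A chain of two primes over `I` bounds the dimension of the quotient from below. -/
theorem one_le_dim {R : Type*} [CommRing R] {I p q : Ideal R} [hp : p.IsPrime] [hq : q.IsPrime]
    (h1 : I ≤ p) (h2 : p < q) :
    (1 : WithBot ℕ∞) ≤ ringKrullDim (R ⧸ I) := by
  rw [ringKrullDim_quotient]
  let P : PrimeSpectrum.zeroLocus (R := R) (I : Set R) := ⟨⟨p, hp⟩, h1⟩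
  let Q : PrimeSpectrum.zeroLocus (R := R) (I : Set R) := ⟨⟨q, hq⟩, h1.trans h2.le⟩
  have hPQ : P < Q := h2
  let s : LTSeries (PrimeSpectrum.zeroLocus (R := R) (I : Set R)) :=
    (RelSeries.singleton _ P).snoc Q (by simpa using hPQ)
  have hs : s.length = 1 := rfl
  have := Order.LTSeries.length_le_krullDim s
  rw [hs] at this
  simpa using this

/-- a closed set of dimension zero is finite -/
theorem aff_finite {σ : Type} [Finite σ] (S : Set (MvPolynomial σ ℂ))
    (hdim : ringKrullDim (MvPolynomial σ ℂ ⧸ Ideal.span S) ≤ 0) :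
    {x : σ → ℂ | InZ S x}.Finite := by
  classical
  have hfin : (Ideal.span S).minimalPrimes.Finite :=
    Ideal.finite_minimalPrimes_of_isNoetherianRing _ _
  refine Set.Finite.of_finite_image (f := fun x : σ → ℂ =>
    RingHom.ker (eval x : MvPolynomial σ ℂ →+* ℂ)) (hfin.subset ?_) ?_
  · rintro _ ⟨x, hx, rfl⟩
    have hprime : (RingHom.ker (eval x : MvPolynomial σ ℂ →+* ℂ)).IsPrime := RingHom.ker_isPrime _
    have hle : Ideal.span S ≤ RingHom.ker (eval x : MvPolynomial σ ℂ →+* ℂ) := by
      rw [Ideal.span_le]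
      intro g hg
      exact hx g hg
    obtain ⟨p, hp, hpx⟩ := Ideal.exists_minimalPrimes_le hle
    have hpp : p.IsPrime := hp.1.1
    have heq : p = RingHom.ker (eval x : MvPolynomial σ ℂ →+* ℂ) := by
      by_contra hne
      have hlt : p < RingHom.ker (eval x : MvPolynomial σ ℂ →+* ℂ) := lt_of_le_of_ne hpx hne
      have h2 := one_le_dim hp.1.2 hlt
      exact absurd (h2.trans hdim) (by decide)
    show RingHom.ker (eval x : MvPolynomial σ ℂ →+* ℂ) ∈ _
    rw [← heq]
    exact hp
  · intro x _ y _ hxy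
    have hxy' : RingHom.ker (eval x : MvPolynomial σ ℂ →+* ℂ)
      = RingHom.ker (eval y : MvPolynomial σ ℂ →+* ℂ) := hxy
    funext i
    have h1 : (X i - C (x i) : MvPolynomial σ ℂ) ∈ RingHom.ker (eval x : MvPolynomial σ ℂ →+* ℂ) := by
      rw [RingHom.mem_ker, map_sub, eval_X, eval_C, sub_self]
    rw [hxy', RingHom.mem_ker, map_sub, eval_X, eval_C, sub_eq_zero] at h1
    exact h1.symm

/-- A closed set of dimension at most one in affine space is a finite union of closed sets each of
which is mapped into itself by some iterate, or contains for each `k` only finitely many points whose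
whole orbit under the `k`-th iterate stays in it. -/
theorem aff_split {σ : Type} [Finite σ] (F : σ → MvPolynomial σ ℂ) (V : Set (MvPolynomial σ ℂ))
    (hdim : ringKrullDim (MvPolynomial σ ℂ ⧸ Ideal.span V) ≤ 1) :
    ∃ (r : ℕ) (W : Fin r → Set (MvPolynomial σ ℂ)),
      (∀ x, InZ V x ↔ ∃ j, InZ (W j) x) ∧
      ∀ j, (∃ k, 1 ≤ k ∧ ∀ x, InZ (W j) x → InZ (W j) ((ev F)^[k] x)) ∨
        ∀ k, 1 ≤ k → {x : σ → ℂ | ∀ n, InZ (W j) ((ev F)^[k * n] x)}.Finite := by
  classical
  have hfin : (Ideal.span V).minimalPrimes.Finite :=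
    Ideal.finite_minimalPrimes_of_isNoetherianRing _ _
  let e := hfin.toFinset.equivFin
  let P : Fin hfin.toFinset.card → Ideal (MvPolynomial σ ℂ) := fun j => (e.symm j).1
  have hP : ∀ j, P j ∈ (Ideal.span V).minimalPrimes := fun j =>
    hfin.mem_toFinset.1 (e.symm j).2
  have hPs : ∀ p ∈ (Ideal.span V).minimalPrimes, ∃ j, P j = p := by
    intro p hp
    refine ⟨e ⟨p, hfin.mem_toFinset.2 hp⟩, ?_⟩
    simp [P]
  refine ⟨hfin.toFinset.card, fun j => (P j : Set (MvPolynomial σ ℂ)),
    fun x => ⟨fun hx => ?_, ?_⟩, fun j => ?_⟩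
  · have hmax : (RingHom.ker (eval x : MvPolynomial σ ℂ →+* ℂ)).IsPrime := RingHom.ker_isPrime _
    have hle : Ideal.span V ≤ RingHom.ker (eval x : MvPolynomial σ ℂ →+* ℂ) := by
      rw [Ideal.span_le]
      intro g hg
      exact hx g hg
    obtain ⟨p, hp, hpx⟩ := Ideal.exists_minimalPrimes_le hle
    obtain ⟨j, hj⟩ := hPs p hp
    refine ⟨j, fun g hg => ?_⟩
    exact hpx (hj ▸ hg)
  · rintro ⟨j, hj⟩ g hg
    exact hj g ((hP j).1.2 (Ideal.subset_span hg))
  · by_cases hk : ∃ k, 1 ≤ k ∧ ∀ g ∈ P j, aeval (itp F k) g ∈ P j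
    · left
      obtain ⟨k, hk1, hk2⟩ := hk
      refine ⟨k, hk1, fun x hx g hg => ?_⟩
      rw [← eval_comp']
      exact hx _ (hk2 g hg)
    · right
      intro k hk1
      push Not at hk
      obtain ⟨g, hgP, hg⟩ := hk k hk1
      have hpp : (P j).IsPrime := (hP j).1.1
      set h := aeval (itp F k) g with hh
      let S : Set (MvPolynomial σ ℂ) := (P j : Set (MvPolynomial σ ℂ)) ∪ {h}
      have hPS : P j ≤ Ideal.span S := by
        intro q hq
        exact Ideal.subset_span (Or.inl hq)
      have hd1 : ringKrullDim (MvPolynomial σ ℂ ⧸ P j) ≤ ((0 + 1 : ℕ) : WithBot ℕ∞) :=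
        (ringKrullDim_le_of_surjective (Ideal.Quotient.factor (hP j).1.2)
          (Ideal.Quotient.factor_surjective _)).trans (by simpa using hdim)
      have hd2 : ringKrullDim (MvPolynomial σ ℂ ⧸ Ideal.span S) ≤ 0 := by
        have := dim_add_le hPS (Ideal.subset_span (Set.mem_union_right _ rfl)) hg 0 hd1
        simpa using this
      refine (aff_finite S hd2).subset fun x hn => ?_
      rintro g' (hg' | hg')
      · have := hn 0
        rw [mul_zero, Function.iterate_zero, id] at this
        exact this g' hg'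
      · rw [Set.mem_singleton_iff] at hg'
        rw [hg', hh, eval_comp']
        have := hn 1
        rw [mul_one] at this
        exact this g hgP

end Pool.Agent.Helper33.SS
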