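import Pool.Agent.Helper33.SS.Stage2

/-!
# Homogenization
-/

set_option autoImplicit false

namespace Pool.Agent.Helper33.SS

open MvPolynomial

section
variable {τ : Type}

/-- the point of the affine chart with given coordinates -/
def lft (x : τ → ℂ) : Option τ → ℂ := fun o => o.elim 1 x

@[simp] theorem lft_none (x : τ → ℂ) : lft x none = 1 := rfl

@[simp] theorem lft_some (x : τ → ℂ) (i : τ) : lft x (some i) = x i := rfl

/-- homogenization to degree `d` -/
noncomputable def hmg (d : ℕ) (P : MvPolynomial τ ℂ) : MvPolynomial (Option τ) ℂ :=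
  ∑ m ∈ P.support, rename some (monomial m (P.coeff m)) * X none ^ (d - m.degree)

/-- dehomogenization -/
noncomputable def dh : MvPolynomial (Option τ) ℂ →ₐ[ℂ] MvPolynomial τ ℂ :=
  aeval fun o => o.elim 1 X

theorem eval_dh (y : τ → ℂ) (Q : MvPolynomial (Option τ) ℂ) : eval y (dh Q) = eval (lft y) Q := by
  rw [dh, eval_aeval_aux]
  congr 2
  funext o
  cases o <;> simp [lft]

theorem pderiv_dh (j : τ) (Q : MvPolynomial (Option τ) ℂ) :
    pderiv j (dh Q) = dh (pderiv (some j) Q) := by
  classical
  induction Q using MvPolynomial.induction_on with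
  | C a => simp [dh]
  | add P Q hP hQ => simp only [map_add, hP, hQ]
  | mul_X P o hP =>
    rw [map_mul, pderiv_mul, pderiv_mul, map_add, map_mul, map_mul, hP]
    congr 2
    cases o with
    | none =>
      have h1 : (dh (X none : MvPolynomial (Option τ) ℂ) : MvPolynomial τ ℂ) = 1 := by
        simp [dh]
      rw [h1, pderiv_X_of_ne (by simp)]
      simp
    | some i =>
      have h1 : (dh (X (some i) : MvPolynomial (Option τ) ℂ) : MvPolynomial τ ℂ) = X i := by
        simp [dh]
      rw [h1]
      by_cases h : i = j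
      · subst h
        simp
      · rw [pderiv_X_of_ne h, pderiv_X_of_ne (fun h' => h (Option.some_injective _ h'))]
        simp

theorem hmg_homogeneous {d : ℕ} {P : MvPolynomial τ ℂ} (hP : P.totalDegree ≤ d) :
    (hmg d P).IsHomogeneous d := by
  unfold hmg
  refine IsHomogeneous.sum _ _ _ fun m hm => ?_
  have h1 : m.degree ≤ d := by
    refine le_trans ?_ hP
    have := le_totalDegree hm
    exact this
  have h2 : (rename some (monomial m (P.coeff m)) : MvPolynomial (Option τ) ℂ).IsHomogeneous
      m.degree := (isHomogeneous_monomial _ rfl).rename_isHomogeneous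
  have h3 : (X none ^ (d - m.degree) : MvPolynomial (Option τ) ℂ).IsHomogeneous
      (d - m.degree) := by
    have := (isHomogeneous_X ℂ (none : Option τ)).pow (d - m.degree)
    rwa [one_mul] at this
  have h4 := h2.mul h3
  rwa [Nat.add_sub_cancel' h1] at h4

theorem eval_hmg (d : ℕ) (P : MvPolynomial τ ℂ) (y : τ → ℂ) :
    eval (lft y) (hmg d P) = eval y P := by
  unfold hmg
  rw [map_sum]
  conv_rhs => rw [P.as_sum, map_sum]
  refine Finset.sum_congr rfl fun m _ => ?_
  rw [map_mul, map_pow, eval_X, lft_none, one_pow, mul_one, eval_rename]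
  rfl

theorem dh_hmg (d : ℕ) (P : MvPolynomial τ ℂ) : dh (hmg d P) = P := by
  refine MvPolynomial.funext fun y => ?_
  rw [eval_dh, eval_hmg]

/-- the homogeneous map extending a polynomial map -/
noncomputable def hmap (d : ℕ) (F : τ → MvPolynomial τ ℂ) : Option τ → MvPolynomial (Option τ) ℂ :=
  fun o => o.elim (X none ^ d) fun i => hmg d (F i)

theorem hmap_homogeneous {d : ℕ} {F : τ → MvPolynomial τ ℂ} (hF : ∀ i, (F i).totalDegree ≤ d)
    (o : Option τ) : (hmap d F o).IsHomogeneous d := by
  cases o with
  | none =>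
    have := (isHomogeneous_X ℂ (none : Option τ)).pow d
    rwa [one_mul] at this
  | some i => exact hmg_homogeneous (hF i)

theorem ev_hmap (d : ℕ) (F : τ → MvPolynomial τ ℂ) (y : τ → ℂ) :
    ev (hmap d F) (lft y) = lft (ev F y) := by
  funext o
  cases o with
  | none => simp [ev, hmap]
  | some i =>
    show eval (lft y) (hmg d (F i)) = eval y (F i)
    exact eval_hmg d (F i) y

theorem ev_hmap_iterate (d : ℕ) (F : τ → MvPolynomial τ ℂ) (y : τ → ℂ) (n : ℕ) :
    (ev (hmap d F))^[n] (lft y) = lft ((ev F)^[n] y) := by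
  induction n with
  | zero => rfl
  | succ n ih => rw [Function.iterate_succ_apply', ih, ev_hmap, Function.iterate_succ_apply']

theorem ev_hmap_none (d : ℕ) (F : τ → MvPolynomial τ ℂ) (z : Option τ → ℂ) :
    ev (hmap d F) z none = z none ^ d := by
  simp [ev, hmap]

theorem itp_hmap_none (d : ℕ) (F : τ → MvPolynomial τ ℂ) (k : ℕ) :
    itp (hmap d F) k none = X none ^ (d ^ k) := by
  refine MvPolynomial.funext fun z => ?_
  have h1 : eval z (itp (hmap d F) k none) = (ev (hmap d F))^[k] z none :=
    congrFun (ev_itp (hmap d F) k z) none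
  rw [h1, map_pow, eval_X]
  induction k with
  | zero => simp
  | succ k ih =>
    rw [Function.iterate_succ_apply', ev_hmap_none, ih, pow_succ, pow_mul]
    exact congrFun (ev_itp (hmap d F) k z) none

theorem dh_itp_hmap (d : ℕ) (F : τ → MvPolynomial τ ℂ) (k : ℕ) (i : τ) :
    dh (itp (hmap d F) k (some i)) = itp F k i := by
  refine MvPolynomial.funext fun y => ?_
  rw [eval_dh]
  have h1 : eval (lft y) (itp (hmap d F) k (some i)) = (ev (hmap d F))^[k] (lft y) (some i) :=
    congrFun (ev_itp (hmap d F) k (lft y)) (some i)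
  rw [h1, ev_hmap_iterate]
  exact (congrFun (ev_itp F k y) i).symm

theorem eq_smul_lft {z : Option τ → ℂ} (hz : z none ≠ 0) :
    z = z none • lft fun i => (z none)⁻¹ * z (some i) := by
  funext o
  cases o with
  | none => simp
  | some i =>
    simp only [Pi.smul_apply, lft_some, smul_eq_mul]
    rw [← mul_assoc, mul_inv_cancel₀ hz, one_mul]

end

end Pool.Agent.Helper33.SS
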