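import Pool.Agent.Helper33.SA.OverT
import Pool.Agent.Helper33.SA.AffDim
import Pool.Agent.Helper33.SA.Homog
import Pool.Agent.Helper33.SS.Final

/-!
# The super-sparse dynamical Mordell-Lang theorem for affine varieties
-/

set_option autoImplicit false

namespace Pool.Agent.Helper33.SS

open MvPolynomial Matrix Pool.Agent.Helper36

theorem inZ_union {σ R : Type*} [CommRing R] {A B : Set (MvPolynomial σ R)} {x : σ → R} :
    InZ (A ∪ B) x ↔ InZ A x ∧ InZ B x := by
  constructor
  · intro h
    exact ⟨fun g hg => h g (Or.inl hg), fun g hg => h g (Or.inr hg)⟩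
  · rintro ⟨h1, h2⟩ g (hg | hg)
    · exact h1 g hg
    · exact h2 g hg

/-- One closed set `W` in affine space which contains for each `k` only finitely many points with
whole orbit under the `k`-th iterate in it. -/
theorem aff_one {τ : Type} [Fintype τ] [DecidableEq τ] (F : τ → MvPolynomial τ ℂ)
    (W : Set (MvPolynomial τ ℂ))
    (hfin : ∀ k, 1 ≤ k → {x : τ → ℂ | ∀ n, InZ W ((ev F)^[k * n] x)}.Finite)
    (a : τ → ℂ)
    (hker : ∀ y : τ → ℂ, InZ W y → ∀ k, 1 ≤ k → (ev F)^[k] y = y → ∀ u v : τ → ℂ,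
      (∀ g : MvPolynomial τ ℂ, (∀ n, eval ((ev F)^[n] a) g = 0) →
        ∑ j, eval y (pderiv j g) * u j = 0) →
      (∀ g : MvPolynomial τ ℂ, (∀ n, eval ((ev F)^[n] a) g = 0) →
        ∑ j, eval y (pderiv j g) * v j = 0) →
      (jprod F y k) ^ 2 *ᵥ u = 0 → (jprod F y k) ^ 2 *ᵥ v = 0 →
      ∃ s t : ℂ, (s ≠ 0 ∨ t ≠ 0) ∧ s • u + t • v = 0)
    (hnp : ∀ n k, 1 ≤ k → (ev F)^[n + k] a ≠ (ev F)^[n] a) :
    Sparse {n | InZ W ((ev F)^[n] a)} := by
  classical
  set d : ℕ := 1 + ∑ i, (F i).totalDegree with hd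
  have hd1 : 0 < d := by omega
  have hFd : ∀ i, (F i).totalDegree ≤ d := by
    intro i
    have : (F i).totalDegree ≤ ∑ i, (F i).totalDegree :=
      Finset.single_le_sum (f := fun i => (F i).totalDegree) (fun _ _ => Nat.zero_le _)
        (Finset.mem_univ i)
    omega
  have hhom : ∀ o, (hmap d F o).IsHomogeneous d := hmap_homogeneous hFd
  set E : Set (MvPolynomial (Option τ) ℂ) := {X none} with hE
  have hEz : ∀ z : Option τ → ℂ, InZ E z ↔ z none = 0 := by
    intro z
    constructor
    · intro h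
      have := h (X none) rfl
      rwa [eval_X] at this
    · rintro h g rfl
      rw [eval_X, h]
  set W' : Set (MvPolynomial (Option τ) ℂ) := (fun g => hmg g.totalDegree g) '' W with hW'
  have hW'hom : ∀ g ∈ W', ∃ e : ℕ, g.IsHomogeneous e := by
    rintro _ ⟨g, _, rfl⟩
    exact ⟨_, hmg_homogeneous le_rfl⟩
  have hW'z : ∀ y : τ → ℂ, InZ W' (lft y) ↔ InZ W y := by
    intro y
    constructor
    · intro h g hg
      have := h _ ⟨g, hg, rfl⟩
      rwa [eval_hmg] at this
    · rintro h _ ⟨g, hg, rfl⟩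
      rw [eval_hmg]
      exact h g hg
  have hsm : ∀ (t : ℂ), t ≠ 0 → ∀ (y : τ → ℂ), InZ W' (t • lft y) ↔ InZ W y := by
    intro t ht y
    rw [inZ_smul hW'hom ht, hW'z]
  have hitsm : ∀ (t : ℂ) (y : τ → ℂ) (n : ℕ), (ev (hmap d F))^[n] (t • lft y)
      = t ^ (d ^ n) • lft ((ev F)^[n] y) := by
    intro t y n
    rw [evc_smul hhom, ev_hmap_iterate]
  have hmain := main_oneT (hmap d F) d hd1 hhom E ?_ ?_ ?_ W' hW'hom ?_ (lft a) ?_ ?_ ?_ ?_
  · refine hmain.mono fun n hn => ?_
    show InZ W' ((ev (hmap d F))^[n] (lft a))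
    rw [ev_hmap_iterate, hW'z]
    exact hn
  · rintro g rfl
    exact ⟨1, isHomogeneous_X ℂ none⟩
  · intro z _ h
    rw [hEz] at h ⊢
    rw [ev_hmap_none] at h
    exact pow_eq_zero_iff hd1.ne' |>.1 h
  · intro z _ h
    rw [hEz]
    have h1 := congrFun h none
    rw [ev_hmap_none] at h1
    exact pow_eq_zero_iff hd1.ne' |>.1 h1
  · -- finiteness
    intro k hk
    refine ⟨(hfin k hk).toFinset.image lft, fun z hz h1 h2 => ?_⟩
    rw [hEz] at h2
    have hz' := eq_smul_lft h2
    set y : τ → ℂ := fun i => (z none)⁻¹ * z (some i) with hy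
    refine ⟨lft y, Finset.mem_image_of_mem _ ?_, z none, hz'⟩
    rw [Set.Finite.mem_toFinset]
    intro n
    have h3 := h1 n
    rw [hz', hitsm, hsm _ (pow_ne_zero _ h2)] at h3
    exact h3
  · intro h
    have := congrFun h none
    simp at this
  · rw [hEz, lft_none]
    exact one_ne_zero
  · -- the tangent condition
    intro z hz h1 h2 k hk c hc u v hu hv hu2 hv2
    rw [hEz] at h2
    set t : ℂ := z none with ht
    have hz' : z = t • lft fun i => t⁻¹ * z (some i) := eq_smul_lft h2
    set y : τ → ℂ := fun i => t⁻¹ * z (some i) with hy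
    have hyW : InZ W y := by
      rw [hz', hsm _ h2] at h1
      exact h1
    have hyper : (ev F)^[k] y = y := by
      rw [hz', hitsm] at hc
      have h3 := congrFun hc none
      simp only [Pi.smul_apply, lft_none, smul_eq_mul, mul_one] at h3
      funext i
      have h4 := congrFun hc (some i)
      simp only [Pi.smul_apply, lft_some, smul_eq_mul] at h4
      have h5 : t ^ (d ^ k) ≠ 0 := pow_ne_zero _ h2
      apply mul_left_cancel₀ h5
      rw [h4, h3]
      ring
    -- derivatives of forms at `z`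
    have hder : ∀ (Q : MvPolynomial (Option τ) ℂ) (e : ℕ), Q.IsHomogeneous e → ∀ j : τ,
        eval z (pderiv (some j) Q) = t ^ (e - 1) * eval y (pderiv j (dh Q)) := by
      intro Q e hQ j
      rw [hz', eval_smul_form (hQ.pderiv (i := some j)), pderiv_dh, eval_dh]
    have hJs : ∀ i j : τ, jprod (hmap d F) z k (some i) (some j)
        = t ^ (d ^ k - 1) * jprod F y k i j := by
      intro i j
      rw [← jac_itp, ← jac_itp]
      simp only [jac, Matrix.of_apply]
      rw [hder _ _ (itp_homogeneous hhom k (some i)), dh_itp_hmap]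
    have hJn : ∀ j : τ, jprod (hmap d F) z k none (some j) = 0 := by
      intro j
      rw [← jac_itp]
      simp only [jac, Matrix.of_apply]
      rw [itp_hmap_none, pderiv_pow, pderiv_X_of_ne (by simp)]
      simp
    have hJnn : jprod (hmap d F) z k none none ≠ 0 := by
      rw [← jac_itp]
      simp only [jac, Matrix.of_apply]
      rw [itp_hmap_none, pderiv_pow, pderiv_X_self]
      simp only [map_mul, map_pow, eval_X, mul_one, map_natCast]
      refine mul_ne_zero ?_ (pow_ne_zero _ h2)
      exact_mod_cast (pow_pos hd1 k).ne'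
    have hmv : ∀ w : Option τ → ℂ, (jprod (hmap d F) z k *ᵥ w) none
        = jprod (hmap d F) z k none none * w none := by
      intro w
      rw [Matrix.mulVec, dotProduct, Fintype.sum_option]
      simp only [hJn, zero_mul, Finset.sum_const_zero, add_zero]
    have hmvs : ∀ w : Option τ → ℂ, w none = 0 → ∀ i, (jprod (hmap d F) z k *ᵥ w) (some i)
        = t ^ (d ^ k - 1) * (jprod F y k *ᵥ fun j => w (some j)) i := by
      intro w hw i
      rw [Matrix.mulVec, dotProduct, Fintype.sum_option, hw, mul_zero, zero_add, Matrix.mulVec,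
        dotProduct, Finset.mul_sum]
      refine Finset.sum_congr rfl fun j _ => ?_
      rw [hJs, mul_assoc]
    have hsq : ∀ w : Option τ → ℂ, (jprod (hmap d F) z k) ^ 2 *ᵥ w = 0 →
        w none = 0 ∧ (jprod F y k) ^ 2 *ᵥ (fun j => w (some j)) = 0 := by
      intro w hw
      rw [pow_two, ← Matrix.mulVec_mulVec] at hw
      have h3 := congrFun hw none
      rw [hmv, hmv] at h3
      have h4 : w none = 0 :=
        (mul_eq_zero.1 ((mul_eq_zero.1 h3).resolve_left hJnn)).resolve_left hJnn
      refine ⟨h4, ?_⟩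
      have h5 : (jprod (hmap d F) z k *ᵥ w) none = 0 := by rw [hmv, h4, mul_zero]
      funext i
      have h6 := congrFun hw (some i)
      rw [hmvs _ h5] at h6
      have h7 : (fun j => (jprod (hmap d F) z k *ᵥ w) (some j))
          = t ^ (d ^ k - 1) • (jprod F y k *ᵥ fun j => w (some j)) := by
        funext j
        rw [hmvs _ h4]
        rfl
      rw [h7, Matrix.mulVec_smul] at h6
      simp only [Pi.smul_apply, smul_eq_mul, Pi.zero_apply] at h6
      have h8 : t ^ (d ^ k - 1) ≠ 0 := pow_ne_zero _ h2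
      rw [pow_two, ← Matrix.mulVec_mulVec]
      exact (mul_eq_zero.1 ((mul_eq_zero.1 h6).resolve_left h8)).resolve_left h8
    have htan : ∀ w : Option τ → ℂ, w none = 0 →
        (∀ g : MvPolynomial (Option τ) ℂ, (∃ e : ℕ, g.IsHomogeneous e) →
          (∀ n, eval ((ev (hmap d F))^[n] (lft a)) g = 0) →
          ∑ j, eval z (pderiv j g) * w j = 0) →
        ∀ g : MvPolynomial τ ℂ, (∀ n, eval ((ev F)^[n] a) g = 0) →
          ∑ j, eval y (pderiv j g) * w (some j) = 0 := by
      intro w hw hh g hg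
      have h3 := hh (hmg g.totalDegree g) ⟨_, hmg_homogeneous le_rfl⟩ (fun n => by
        rw [ev_hmap_iterate, eval_hmg]
        exact hg n)
      rw [Fintype.sum_option, hw, mul_zero, zero_add] at h3
      have h4 : ∀ j : τ, eval z (pderiv (some j) (hmg g.totalDegree g)) * w (some j)
          = t ^ (g.totalDegree - 1) * (eval y (pderiv j g) * w (some j)) := by
        intro j
        rw [hder _ _ (hmg_homogeneous le_rfl), dh_hmg, mul_assoc]
      rw [Finset.sum_congr rfl fun j _ => h4 j, ← Finset.mul_sum] at h3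
      exact (mul_eq_zero.1 h3).resolve_left (pow_ne_zero _ h2)
    obtain ⟨hu0, hu1⟩ := hsq u hu2
    obtain ⟨hv0, hv1⟩ := hsq v hv2
    obtain ⟨r, s, hrs, h3⟩ := hker y hyW k hk hyper _ _ (htan u hu0 hu) (htan v hv0 hv) hu1 hv1
    refine ⟨r, s, hrs, ?_⟩
    funext o
    cases o with
    | none => simp [hu0, hv0]
    | some i => exact congrFun h3 i
  · -- not preperiodic
    intro n k hk c h
    apply hnp n k hk
    rw [ev_hmap_iterate, ev_hmap_iterate] at h
    have h1 := congrFun h none
    simp only [Pi.smul_apply, lft_none, smul_eq_mul, mul_one] at h1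
    funext i
    have h2 := congrFun h (some i)
    simp only [Pi.smul_apply, lft_some, smul_eq_mul] at h2
    rw [h2, ← h1, one_mul]

/-- The main theorem for affine varieties. -/
theorem aff_main {τ : Type} [Fintype τ] [DecidableEq τ] (F : τ → MvPolynomial τ ℂ)
    (A : Set (MvPolynomial τ ℂ)) (hA : ∀ x, InZ A x → InZ A (ev F x))
    (r : ℕ) (V : Fin r → Set (MvPolynomial τ ℂ))
    (hcase : ∀ j, (∃ k, 1 ≤ k ∧ ∀ x, InZ A x → InZ (V j) x → InZ (V j) ((ev F)^[k] x)) ∨
      ((ringKrullDim (MvPolynomial τ ℂ ⧸ Ideal.span (A ∪ V j)) ≤ 1 ∨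
        ∀ k, 1 ≤ k → {x : τ → ℂ | InZ A x ∧ ∀ n, InZ (V j) ((ev F)^[k * n] x)}.Finite) ∧
      ∀ y : τ → ℂ, InZ A y → InZ (V j) y → ∀ k, 1 ≤ k → (ev F)^[k] y = y → ∀ u v : τ → ℂ,
        (∀ g : MvPolynomial τ ℂ, (∀ x, InZ A x → eval x g = 0) →
          ∑ j, eval y (pderiv j g) * u j = 0) →
        (∀ g : MvPolynomial τ ℂ, (∀ x, InZ A x → eval x g = 0) →
          ∑ j, eval y (pderiv j g) * v j = 0) →
        (jprod F y k) ^ 2 *ᵥ u = 0 → (jprod F y k) ^ 2 *ᵥ v = 0 →
        ∃ s t : ℂ, (s ≠ 0 ∨ t ≠ 0) ∧ s • u + t • v = 0))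
    (a : τ → ℂ) (ha : InZ A a) :
    SGood {n | ∃ j, InZ (V j) ((ev F)^[n] a)} := by
  have horb : ∀ n, InZ A ((ev F)^[n] a) := by
    intro n
    induction n with
    | zero => exact ha
    | succ n ih =>
      rw [Function.iterate_succ_apply']
      exact hA _ ih
  have hset : {n | ∃ j, InZ (V j) ((ev F)^[n] a)} = ⋃ j, {n | InZ (V j) ((ev F)^[n] a)} := by
    ext n
    simp
  rw [hset]
  refine SGood.iUnion fun j => ?_
  by_cases hper : ∃ n k, 1 ≤ k ∧ (ev F)^[n + k] a = (ev F)^[n] a
  · -- preperiodic points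
    obtain ⟨n₀, k, hk, hc⟩ := hper
    refine SGood.of_AP (APSet_of_evClosed hk ((Set.finite_Iio n₀).subset ?_))
    rintro n ⟨hn1, hn2⟩
    by_contra hlt
    apply hn2
    have hle : n₀ ≤ n := not_lt.1 hlt
    obtain ⟨m, rfl⟩ := Nat.exists_eq_add_of_le hle
    have h1 : (ev F)^[n₀ + m + k] a = (ev F)^[n₀ + m] a := by
      rw [show n₀ + m + k = m + (n₀ + k) by ring, Function.iterate_add_apply, hc,
        ← Function.iterate_add_apply, add_comm m n₀]
    show InZ (V j) ((ev F)^[n₀ + m + k] a)
    rw [h1]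
    exact hn1
  · push Not at hper
    rcases hcase j with ⟨k, hk, hst⟩ | ⟨hsmall, hmild⟩
    · -- stable sets
      refine SGood.of_AP (APSet_of_evClosed hk (Set.finite_empty.subset ?_))
      rintro n ⟨hn1, hn2⟩
      apply hn2
      show InZ (V j) ((ev F)^[n + k] a)
      rw [add_comm n k, Function.iterate_add_apply]
      exact hst _ (horb n) hn1
    · -- the theorem for a set `W` inside `V j`
      have hone : ∀ W : Set (MvPolynomial τ ℂ), (∀ x, InZ (A ∪ W) x → InZ (V j) x) →
          (∀ k, 1 ≤ k → {x : τ → ℂ | ∀ n, InZ (A ∪ W) ((ev F)^[k * n] x)}.Finite) →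
          Sparse {n | InZ W ((ev F)^[n] a)} := by
        intro W hWV hW
        have h1 := aff_one F (A ∪ W) hW a (fun y hy k hk hyk u v hu hv hu2 hv2 => by
          have hyA : InZ A y := (inZ_union.1 hy).1
          refine hmild y hyA (hWV y hy) k hk hyk u v (fun g hg => hu g fun n => hg _ (horb n))
            (fun g hg => hv g fun n => hg _ (horb n)) hu2 hv2) hper
        refine h1.mono fun n hn => ?_
        exact inZ_union.2 ⟨horb n, hn⟩
      rcases hsmall with hdim | hfew
      · obtain ⟨r', W, hW2, hW3⟩ := aff_split F (A ∪ V j) hdim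
        have hset2 : {n | InZ (V j) ((ev F)^[n] a)} = ⋃ l, {n | InZ (W l) ((ev F)^[n] a)} := by
          ext n
          simp only [Set.mem_ofPred_eq, Set.mem_iUnion]
          rw [← hW2, inZ_union]
          exact ⟨fun h => ⟨horb n, h⟩, fun h => h.2⟩
        rw [hset2]
        refine SGood.iUnion fun l => ?_
        rcases hW3 l with ⟨k, hk, hst⟩ | hB
        · refine SGood.of_AP (APSet_of_evClosed hk (Set.finite_empty.subset ?_))
          rintro n ⟨hn1, hn2⟩
          apply hn2
          show InZ (W l) ((ev F)^[n + k] a)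
          rw [add_comm n k, Function.iterate_add_apply]
          exact hst _ hn1
        · refine SGood.of_sparse (hone (W l) (fun x h => ?_) fun k hk => ?_)
          · exact (inZ_union.1 ((hW2 x).2 ⟨l, (inZ_union.1 h).2⟩)).2
          · refine (hB k hk).subset fun x hx n => ?_
            exact (inZ_union.1 (hx n)).2
      · refine SGood.of_sparse (hone (V j) (fun x h => (inZ_union.1 h).2) fun k hk => ?_)
        refine (hfew k hk).subset fun x hx => ⟨?_, fun n => (inZ_union.1 (hx n)).2⟩
        have := (inZ_union.1 (hx 0)).1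
        rwa [mul_zero, Function.iterate_zero, id] at this

end Pool.Agent.Helper33.SS
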