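import Pool.Agent.Helper33.SS.LinAlg

/-!
# Changing a recurrence outside the tangent space of the orbit
-/

set_option autoImplicit false

namespace Pool.Agent.Helper33.SS

open Matrix MvPolynomial

theorem root_iff {K : Type*} [Field K] {τ : Type*} [Fintype τ] [DecidableEq τ] (A : Matrix τ τ K)
    (ν : K) : A.charpoly.IsRoot ν ↔ ∃ v : τ → K, v ≠ 0 ∧ A *ᵥ v = ν • v := by
  rw [Polynomial.IsRoot, Matrix.eval_charpoly, ← Matrix.exists_mulVec_eq_zero_iff]
  refine exists_congr fun v => and_congr_right fun _ => ?_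
  rw [Matrix.sub_mulVec, sub_eq_zero, Matrix.scalar_apply, ← Matrix.smul_one_eq_diagonal,
    Matrix.smul_mulVec, Matrix.one_mulVec]
  exact eq_comm

/-- the alternative for a matrix whose square has a kernel of dimension at most one -/
theorem linalg_of_hpar {K : Type*} [Field K] {τ : Type*} [Fintype τ] [DecidableEq τ]
    (T : Matrix τ τ K)
    (hpar : ∀ x y, T *ᵥ (T *ᵥ x) = 0 → T *ᵥ (T *ᵥ y) = 0 → x ≠ 0 → ∃ b : K, y = b • x) :
    (∃ Θ : Matrix τ τ K, Θ * T = 1) ∨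
    ∃ (Θ : Matrix τ τ K) (κ ℓ : τ → K),
      ℓ ⬝ᵥ κ = 1 ∧ ℓ ᵥ* T = 0 ∧ T *ᵥ κ = 0 ∧ Θ * T = 1 - vecMulVec κ ℓ := by
  by_cases hinj : Function.Injective T.mulVec
  · left
    have hu := Matrix.mulVec_injective_iff_isUnit.1 hinj
    exact ⟨T⁻¹, Matrix.nonsing_inv_mul T ((Matrix.isUnit_iff_isUnit_det T).1 hu)⟩
  · right
    obtain ⟨κ, hκ0, hκ⟩ : ∃ κ, κ ≠ 0 ∧ T *ᵥ κ = 0 := by
      rw [Function.Injective] at hinj
      push Not at hinj
      obtain ⟨x, y, hxy, hne⟩ := hinj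
      exact ⟨x - y, sub_ne_zero.2 hne, by rw [Matrix.mulVec_sub, hxy, sub_self]⟩
    have hnr : κ ∉ LinearMap.range T.mulVecLin := by
      rintro ⟨y, hy⟩
      have hy' : T *ᵥ y = κ := by simpa using hy
      obtain ⟨b, hb⟩ := hpar κ y (by rw [hκ, Matrix.mulVec_zero]) (by rw [hy', hκ]) hκ0
      apply hκ0
      rw [← hy', hb, Matrix.mulVec_smul, hκ, smul_zero]
    obtain ⟨f, hf1, hf2⟩ := Submodule.exists_dual_map_eq_bot_of_notMem hnr inferInstance
    set ℓ : τ → K := fun j => (f κ)⁻¹ * f (Pi.single j 1) with hℓ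
    have hfe : ∀ x : τ → K, ℓ ⬝ᵥ x = (f κ)⁻¹ * f x := by
      intro x
      have h1 : x = ∑ j, x j • (Pi.single j (1 : K) : τ → K) := by
        funext j
        simp [Finset.sum_apply, Pi.single_apply]
      conv_rhs => rw [h1]
      rw [map_sum, dotProduct, Finset.mul_sum]
      refine Finset.sum_congr rfl fun j _ => ?_
      rw [map_smul, hℓ, smul_eq_mul]
      ring
    have h1 : ℓ ⬝ᵥ κ = 1 := by
      rw [hfe, inv_mul_cancel₀ hf1]
    have h2 : ∀ x, ℓ ⬝ᵥ (T *ᵥ x) = 0 := by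
      intro x
      have h3 : f (T.mulVecLin x) ∈ (LinearMap.range T.mulVecLin).map f :=
        Submodule.mem_map_of_mem ⟨x, rfl⟩
      rw [hf2, Submodule.mem_bot] at h3
      rw [hfe]
      have h4 : f (T *ᵥ x) = 0 := h3
      rw [h4, mul_zero]
    have h3 : ℓ ᵥ* T = 0 := by
      funext j
      have h4 := h2 (Pi.single j 1)
      rw [Matrix.dotProduct_mulVec] at h4
      simpa using h4
    have hinj2 : Function.Injective (T + vecMulVec κ ℓ).mulVec := by
      have key : ∀ x, (T + vecMulVec κ ℓ) *ᵥ x = 0 → x = 0 := by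
        intro x hx
        have h5 : T *ᵥ x + (ℓ ⬝ᵥ x) • κ = 0 := by
          rw [← hx, Matrix.add_mulVec, Matrix.vecMulVec_mulVec]
          simp
        have h6 : ℓ ⬝ᵥ x = 0 := by
          have h7 := congrArg (fun y => ℓ ⬝ᵥ y) h5
          simp only [dotProduct_add, h2, dotProduct_smul, h1, dotProduct_zero, zero_add,
            smul_eq_mul, mul_one] at h7
          exact h7
        rw [h6, zero_smul, add_zero] at h5
        obtain ⟨b, hb⟩ := hpar κ x (by rw [hκ, Matrix.mulVec_zero])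
          (by rw [h5, Matrix.mulVec_zero]) hκ0
        rw [hb, dotProduct_smul, h1, smul_eq_mul, mul_one] at h6
        rw [hb, h6, zero_smul]
      intro x y hxy
      have h8 := key (x - y) (by rw [Matrix.mulVec_sub]; exact sub_eq_zero.2 hxy)
      exact sub_eq_zero.1 h8
    have hu := Matrix.mulVec_injective_iff_isUnit.1 hinj2
    set Θ := (T + vecMulVec κ ℓ)⁻¹ with hΘ
    have h9 : Θ * (T + vecMulVec κ ℓ) = 1 :=
      Matrix.nonsing_inv_mul _ ((Matrix.isUnit_iff_isUnit_det _).1 hu)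
    have h10 : Θ *ᵥ κ = κ := by
      have h11 : (T + vecMulVec κ ℓ) *ᵥ κ = κ := by
        rw [Matrix.add_mulVec, hκ, Matrix.vecMulVec_mulVec, h1]
        simp
      calc Θ *ᵥ κ = Θ *ᵥ ((T + vecMulVec κ ℓ) *ᵥ κ) := by rw [h11]
        _ = κ := by rw [Matrix.mulVec_mulVec, h9, Matrix.one_mulVec]
    refine ⟨Θ, κ, ℓ, h1, h3, hκ, ?_⟩
    have h12 : Θ * vecMulVec κ ℓ = vecMulVec κ ℓ := by
      rw [Matrix.mul_vecMulVec, h10]
    rw [Matrix.mul_add, h12] at h9
    exact eq_sub_of_add_eq h9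

/-- Let `U` be a `T`-stable subspace such that every linear form vanishing on `U` is the linear part
of a polynomial vanishing at all `x n`. Then the recurrence for `x n` can be changed such that `T`
becomes the identity on a complement of `U`. -/
theorem modify {K : Type*} [Field K] {τ : Type*} [Fintype τ] [DecidableEq τ]
    (T : Matrix τ τ K) (Q : τ → MvPolynomial (τ ⊕ τ) K) (hQ : ∀ i, Q i ∈ Sq (τ ⊕ τ) K)
    (x : ℕ → τ → K)
    (hrec : ∀ n, x (n + 1) = T *ᵥ x n + fun i => MvPolynomial.eval (Sum.elim (x n) (x (n + 1))) (Q i))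
    (U : Submodule K (τ → K)) (hTU : ∀ u ∈ U, T *ᵥ u ∈ U)
    (hann : ∀ φ : Module.Dual K (τ → K), (∀ u ∈ U, φ u = 0) → ∃ P : MvPolynomial τ K,
      (∀ n, MvPolynomial.eval (x n) P = 0) ∧
      P - ∑ j, MvPolynomial.C (φ (Pi.single j 1)) * MvPolynomial.X j ∈ Sq τ K)
    (hpar : ∀ u ∈ U, ∀ v ∈ U, T *ᵥ (T *ᵥ u) = 0 → T *ᵥ (T *ᵥ v) = 0 → u ≠ 0 →
      ∃ b : K, v = b • u) :
    ∃ (T' : Matrix τ τ K) (Q' : τ → MvPolynomial (τ ⊕ τ) K), (∀ i, Q' i ∈ Sq (τ ⊕ τ) K) ∧
      (∀ n, x (n + 1) = T' *ᵥ x n +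
        fun i => MvPolynomial.eval (Sum.elim (x n) (x (n + 1))) (Q' i)) ∧
      (∀ ν, T'.charpoly.IsRoot ν → ν = 1 ∨ T.charpoly.IsRoot ν) ∧
      ∀ u v, T' *ᵥ (T' *ᵥ u) = 0 → T' *ᵥ (T' *ᵥ v) = 0 → u ≠ 0 → ∃ b : K, v = b • u := by
  classical
  obtain ⟨W, hUW⟩ := Submodule.exists_isCompl U
  set π : (τ → K) →ₗ[K] (τ → K) := U.subtype ∘ₗ (Submodule.projectionOnto U W hUW) with hπ
  have hπU : ∀ v, π v ∈ U := fun v => by
    rw [hπ]
    exact (Submodule.projectionOnto U W hUW v).2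
  have hπu : ∀ u ∈ U, π u = u := by
    intro u hu
    rw [hπ]
    simp [Submodule.projectionOnto_apply_left hUW ⟨u, hu⟩]
  set L : (τ → K) →ₗ[K] (τ → K) := T.mulVecLin ∘ₗ π + (LinearMap.id - π) with hL
  set T' : Matrix τ τ K := LinearMap.toMatrix' L with hT'
  have hT'v : ∀ v, T' *ᵥ v = T *ᵥ (π v) + (v - π v) := by
    intro v
    rw [hT', LinearMap.toMatrix'_mulVec, hL]
    rfl
  have hT'π : ∀ v, π (T' *ᵥ v) = T *ᵥ (π v) := by
    intro v
    rw [hT'v, map_add, map_sub, hπu _ (hTU _ (hπU v)), hπu _ (hπU v), sub_self, add_zero]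
  have hT'c : ∀ v, T' *ᵥ v - π (T' *ᵥ v) = v - π v := by
    intro v
    rw [hT'π, hT'v, add_sub_cancel_left]
  -- the rows of the difference
  have hrow : ∀ i, ∃ P : MvPolynomial τ K, (∀ n, MvPolynomial.eval (x n) P = 0) ∧
      P - ∑ j, MvPolynomial.C ((T' - T) i j) * MvPolynomial.X j ∈ Sq τ K := by
    intro i
    obtain ⟨P, hP1, hP2⟩ := hann ((LinearMap.proj i) ∘ₗ (T' - T).mulVecLin) (by
      intro u hu
      simp only [LinearMap.comp_apply, Matrix.mulVecLin_apply, LinearMap.proj_apply]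
      rw [Matrix.sub_mulVec, hT'v, hπu u hu, sub_self, add_zero, sub_self]
      rfl)
    refine ⟨P, hP1, ?_⟩
    have : ∀ j, ((LinearMap.proj i) ∘ₗ (T' - T).mulVecLin : (τ → K) →ₗ[K] K) (Pi.single j 1)
        = (T' - T) i j := by
      intro j
      simp only [LinearMap.comp_apply, Matrix.mulVecLin_apply, LinearMap.proj_apply]
      simp
    simpa only [this] using hP2
  choose P hP1 hP2 using hrow
  -- the embedding of polynomials
  set emb : MvPolynomial τ K →ₐ[K] MvPolynomial (τ ⊕ τ) K := rename Sum.inl with hemb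
  have hembSq : ∀ R ∈ Sq τ K, emb R ∈ Sq (τ ⊕ τ) K := by
    intro R hR
    have h1 : (Ideal.span (Set.range (X : τ → MvPolynomial τ K))).map emb
        ≤ Ideal.span (Set.range (X : τ ⊕ τ → MvPolynomial (τ ⊕ τ) K)) := by
      rw [Ideal.map_span, Ideal.span_le]
      rintro _ ⟨_, ⟨j, rfl⟩, rfl⟩
      rw [hemb, rename_X]
      exact Ideal.subset_span ⟨_, rfl⟩
    have h2 : emb R ∈ (Sq τ K).map emb := Ideal.mem_map_of_mem _ hR
    unfold Sq at h2 ⊢
    rw [Ideal.map_pow] at h2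
    exact Ideal.pow_right_mono h1 2 h2
  have hembe : ∀ (R : MvPolynomial τ K) (u v : τ → K),
      MvPolynomial.eval (Sum.elim u v) (emb R) = MvPolynomial.eval u R := by
    intro R u v
    rw [hemb, eval_rename]
    rfl
  refine ⟨T', fun i => Q i + emb (P i - ∑ j, MvPolynomial.C ((T' - T) i j) * MvPolynomial.X j),
    fun i => Ideal.add_mem _ (hQ i) (hembSq _ (hP2 i)), fun n => ?_, fun ν hν => ?_, ?_⟩
  · funext i
    have h1 := congrFun (hrec n) i
    simp only [Pi.add_apply] at h1 ⊢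
    rw [h1, map_add, hembe, map_sub, hP1, zero_sub, map_sum]
    have h2 : ∑ j, MvPolynomial.eval (x n) (MvPolynomial.C ((T' - T) i j) * MvPolynomial.X j)
        = (T' *ᵥ x n) i - (T *ᵥ x n) i := by
      rw [← Pi.sub_apply, ← Matrix.sub_mulVec]
      simp only [map_mul, eval_C, eval_X]
      rfl
    rw [h2]
    ring
  · rw [root_iff] at hν ⊢
    obtain ⟨v, hv0, hv⟩ := hν
    by_cases hvU : v - π v = 0
    · right
      have hvπ : π v = v := (sub_eq_zero.1 hvU).symm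
      refine ⟨v, hv0, ?_⟩
      have := hT'v v
      rwa [hvπ, sub_self, add_zero, hv, eq_comm] at this
    · left
      have h1 := hT'c v
      rw [hv, map_smul, ← smul_sub] at h1
      have h2 : (ν - 1) • (v - π v) = 0 := by rw [sub_smul, h1, one_smul, sub_self]
      exact sub_eq_zero.1 ((smul_eq_zero.1 h2).resolve_right hvU)
  · have key : ∀ u, T' *ᵥ (T' *ᵥ u) = 0 → u ∈ U ∧ T *ᵥ (T *ᵥ u) = 0 := by
      intro u hu
      have h1 := hT'c (T' *ᵥ u)
      rw [hu, map_zero, sub_zero, hT'c] at h1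
      have h2 : π u = u := (sub_eq_zero.1 h1.symm).symm
      refine ⟨h2 ▸ hπU u, ?_⟩
      have h3 := hT'π (T' *ᵥ u)
      rw [hu, map_zero, hT'π, h2] at h3
      exact h3.symm
    intro u v hu hv hu0
    exact hpar u (key u hu).1 v (key v hv).1 (key u hu).2 (key v hv).2 hu0

end Pool.Agent.Helper33.SS
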