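import Pool.Agent.Helper33.SA.LinT
import Pool.Agent.Helper33.SS.Stage2

/-!
# The recurrence adapted to the tangent space of the closure of the orbit
-/

set_option autoImplicit false

namespace Pool.Agent.Helper33.SS

open Matrix MvPolynomial

section
variable {K : Type*} [Field K] {σ : Type*} [Fintype σ] [DecidableEq σ]

/-- first order Taylor expansion modulo the square of an ideal -/
theorem taylor_sq {A : Type*} [CommRing A] [Algebra K A] (I : Ideal A) (y : σ → A)
    (hy : ∀ i, y i ∈ I) (β : σ → K) (P : MvPolynomial σ K) :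
    aeval (fun i => algebraMap K A (β i) + y i) P - algebraMap K A (eval β P)
      - ∑ l, algebraMap K A (eval β (pderiv l P)) * y l ∈ I ^ 2 := by
  induction P using MvPolynomial.induction_on with
  | C a => simp
  | add p q hp hq =>
    have h := Ideal.add_mem _ hp hq
    have e : aeval (fun i => algebraMap K A (β i) + y i) (p + q)
          - algebraMap K A (eval β (p + q))
          - ∑ l, algebraMap K A (eval β (pderiv l (p + q))) * y l
        = (aeval (fun i => algebraMap K A (β i) + y i) p - algebraMap K A (eval β p)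
            - ∑ l, algebraMap K A (eval β (pderiv l p)) * y l)
          + (aeval (fun i => algebraMap K A (β i) + y i) q - algebraMap K A (eval β q)
            - ∑ l, algebraMap K A (eval β (pderiv l q)) * y l) := by
      simp only [map_add, add_mul, Finset.sum_add_distrib]
      ring
    rw [e]
    exact h
  | mul_X p i hp =>
    set a := aeval (fun i => algebraMap K A (β i) + y i) p with ha
    set p0 := algebraMap K A (eval β p) with hp0
    set p1 := ∑ l, algebraMap K A (eval β (pderiv l p)) * y l with hp1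
    have h1 : p1 ∈ I := Ideal.sum_mem _ fun l _ => Ideal.mul_mem_left _ _ (hy l)
    have h2 : p1 * y i ∈ I ^ 2 := by
      rw [pow_two]
      exact Ideal.mul_mem_mul h1 (hy i)
    have e1 : ∑ l, algebraMap K A (eval β (pderiv l (p * X i))) * y l
        = algebraMap K A (β i) * p1 + p0 * y i := by
      have : ∀ l, algebraMap K A (eval β (pderiv l (p * X i))) * y l
          = algebraMap K A (β i) * (algebraMap K A (eval β (pderiv l p)) * y l)
            + (if l = i then p0 * y i else 0) := by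
        intro l
        rw [pderiv_mul, map_add, map_mul, map_mul, eval_X, pderiv_X, map_add, map_mul, map_mul]
        by_cases hl : l = i
        · subst hl
          simp only [Pi.single_eq_same, map_one, if_true]
          ring
        · rw [if_neg hl]
          have : (Pi.single l 1 : σ → MvPolynomial σ K) i = 0 := by
            rw [Pi.single_apply, if_neg (fun h => hl h.symm)]
          rw [this]
          simp only [map_zero]
          ring
      rw [Finset.sum_congr rfl fun l _ => this l, Finset.sum_add_distrib, ← Finset.mul_sum,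
        ← hp1]
      simp
    have e2 : aeval (fun i => algebraMap K A (β i) + y i) (p * X i)
          - algebraMap K A (eval β (p * X i))
          - ∑ l, algebraMap K A (eval β (pderiv l (p * X i))) * y l
        = (algebraMap K A (β i) + y i) * (a - p0 - p1) + p1 * y i := by
      rw [e1, map_mul, aeval_X, map_mul, eval_X, map_mul]
      ring
    rw [e2]
    exact Ideal.add_mem _ (Ideal.mul_mem_left _ _ hp) h2

theorem extz_self' (i₀ : σ) (x : {j : σ // j ≠ i₀} → K) : extz i₀ x i₀ = 0 := by simp [extz]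

theorem extz_coe' (i₀ : σ) (x : {j : σ // j ≠ i₀} → K) (j : {j : σ // j ≠ i₀}) :
    extz i₀ x j = x j := by simp [extz, j.2]

theorem sum_extz' (i₀ : σ) (f : σ → K) (x : {j : σ // j ≠ i₀} → K) :
    ∑ l, f l * extz i₀ x l = ∑ l : {j : σ // j ≠ i₀}, f l * x l := by
  have h1 : ∀ l : {j : σ // j ≠ i₀}, f l * x l = f l * extz i₀ x l := by
    intro l
    rw [extz_coe']
  rw [Finset.sum_congr rfl fun l _ => h1 l]
  have h3 := Finset.add_sum_erase Finset.univ (fun l => f l * extz i₀ x l) (Finset.mem_univ i₀)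
  have h2 : ∑ l ∈ Finset.univ.erase i₀, f l * extz i₀ x l
      = ∑ l : {j : σ // j ≠ i₀}, f l * extz i₀ x l :=
    Finset.sum_subtype (Finset.univ.erase i₀) (by intro l; simp) (fun l => f l * extz i₀ x l)
  rw [← h3, extz_self', mul_zero, zero_add, h2]

theorem extz_tmat' (J : Matrix σ σ K) (β : σ → K) (i₀ : σ) (hβ : β i₀ = 1) (c : K)
    (x : {j : σ // j ≠ i₀} → K) :
    extz i₀ (tmat J β i₀ c *ᵥ x)
      = c⁻¹ • (J *ᵥ extz i₀ x - (J *ᵥ extz i₀ x) i₀ • β) := by
  funext j
  by_cases h : j = i₀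
  · subst h
    rw [extz_self']
    simp [hβ]
  · have e := extz_coe' i₀ (tmat J β i₀ c *ᵥ x) ⟨j, h⟩
    simp only at e
    rw [e]
    simp only [tmat, Matrix.mulVec, dotProduct, Matrix.of_apply, Pi.smul_apply, Pi.sub_apply,
      smul_eq_mul]
    rw [sum_extz', sum_extz', Finset.sum_mul, ← Finset.sum_sub_distrib, Finset.mul_sum]
    refine Finset.sum_congr rfl fun l _ => ?_
    ring

/-- extension by zero as a linear map -/
def extzL (i₀ : σ) : ({j : σ // j ≠ i₀} → K) →ₗ[K] (σ → K) where
  toFun := extz i₀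
  map_add' x y := by
    funext j
    by_cases h : j = i₀ <;> simp [extz, h]
  map_smul' c x := by
    funext j
    by_cases h : j = i₀ <;> simp [extz, h]

/-- the differential of a polynomial at a point as a linear form -/
noncomputable def dif (β : σ → K) (g : MvPolynomial σ K) : (σ → K) →ₗ[K] K where
  toFun v := ∑ j, eval β (pderiv j g) * v j
  map_add' x y := by simp [mul_add, Finset.sum_add_distrib]
  map_smul' c x := by
    simp only [Pi.smul_apply, smul_eq_mul, RingHom.id_apply, Finset.mul_sum]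
    exact Finset.sum_congr rfl fun j _ => by ring

theorem span_lin {τ : Type*} [Fintype τ] [DecidableEq τ] (x : ℕ → τ → K)
    (S : Set (Module.Dual K (τ → K)))
    (hS : ∀ φ ∈ S, ∃ P : MvPolynomial τ K, (∀ n, MvPolynomial.eval (x n) P = 0) ∧
      P - ∑ j, MvPolynomial.C (φ (Pi.single j 1)) * MvPolynomial.X j ∈ Sq τ K)
    (φ : Module.Dual K (τ → K)) (hφ : φ ∈ Submodule.span K S) :
    ∃ P : MvPolynomial τ K, (∀ n, MvPolynomial.eval (x n) P = 0) ∧
      P - ∑ j, MvPolynomial.C (φ (Pi.single j 1)) * MvPolynomial.X j ∈ Sq τ K := by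
  induction hφ using Submodule.span_induction with
  | mem φ h => exact hS φ h
  | zero => exact ⟨0, fun n => map_zero _, by simp⟩
  | add φ ψ _ _ h1 h2 =>
    obtain ⟨P, hP1, hP2⟩ := h1
    obtain ⟨R, hR1, hR2⟩ := h2
    refine ⟨P + R, fun n => by rw [map_add, hP1, hR1, add_zero], ?_⟩
    have h3 := Ideal.add_mem _ hP2 hR2
    have h4 : P + R - ∑ j, MvPolynomial.C ((φ + ψ) (Pi.single j 1)) * MvPolynomial.X j
        = P - ∑ j, MvPolynomial.C (φ (Pi.single j 1)) * MvPolynomial.X j
          + (R - ∑ j, MvPolynomial.C (ψ (Pi.single j 1)) * MvPolynomial.X j) := by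
      simp only [LinearMap.add_apply, map_add, add_mul, Finset.sum_add_distrib]
      ring
    rw [h4]
    exact h3
  | smul a φ _ h1 =>
    obtain ⟨P, hP1, hP2⟩ := h1
    refine ⟨MvPolynomial.C a * P, fun n => by rw [map_mul, hP1, mul_zero], ?_⟩
    have h3 := Ideal.mul_mem_left _ (MvPolynomial.C a) hP2
    have h4 : MvPolynomial.C a * P - ∑ j, MvPolynomial.C ((a • φ) (Pi.single j 1))
          * MvPolynomial.X j
        = MvPolynomial.C a * (P - ∑ j, MvPolynomial.C (φ (Pi.single j 1)) * MvPolynomial.X j) := by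
      simp only [LinearMap.smul_apply, smul_eq_mul, map_mul, mul_sub, Finset.mul_sum, mul_assoc]
    rw [h4]
    exact h3

theorem tan_data (G : σ → MvPolynomial σ K) (D : ℕ) (hG : ∀ i, (G i).IsHomogeneous D)
    (β : σ → K) (i₀ : σ) (hβ : β i₀ = 1) (c : K) (hc : c ≠ 0) (hD : (D : K) ≠ 0)
    (hfix : ∀ i, eval β (G i) = c * β i)
    (y : ℕ → σ → K) (hy : ∀ n, y (n + 1) = ev G (y n)) (μ : ℕ → K) (hμ : ∀ n, μ n ≠ 0)
    (x : ℕ → {j : σ // j ≠ i₀} → K) (hyx : ∀ n, y n = μ n • (β + extz i₀ (x n)))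
    (H : Set (MvPolynomial σ K))
    (hH : H = {g | (∃ e : ℕ, g.IsHomogeneous e) ∧ ∀ n, eval (y n) g = 0})
    (hHβ : ∀ g ∈ H, eval β g = 0)
    (hker : ∀ u v : σ → K, (∀ g ∈ H, ∑ j, eval β (pderiv j g) * u j = 0) →
      (∀ g ∈ H, ∑ j, eval β (pderiv j g) * v j = 0) → (jac G β) ^ 2 *ᵥ u = 0 →
      (jac G β) ^ 2 *ᵥ v = 0 → ∃ s t : K, (s ≠ 0 ∨ t ≠ 0) ∧ s • u + t • v = 0) :
    ∃ (T' : Matrix {j : σ // j ≠ i₀} {j : σ // j ≠ i₀} K)
      (Q' : {j : σ // j ≠ i₀} → MvPolynomial ({j : σ // j ≠ i₀} ⊕ {j : σ // j ≠ i₀}) K),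
      (∀ i, Q' i ∈ Sq _ K) ∧
      (∀ n, x (n + 1) = T' *ᵥ x n +
        fun i => MvPolynomial.eval (Sum.elim (x n) (x (n + 1))) (Q' i)) ∧
      (∀ ν, T'.charpoly.IsRoot ν → ν = 1 ∨ (tmat (jac G β) β i₀ c).charpoly.IsRoot ν) ∧
      ∀ u v, T' *ᵥ (T' *ᵥ u) = 0 → T' *ᵥ (T' *ᵥ v) = 0 → u ≠ 0 → ∃ b : K, v = b • u := by
  classical
  obtain ⟨Q, hQ, hrec⟩ := exists_recurrence G D hG β i₀ hβ c hc hfix y hy μ hμ x hyx
  set J := jac G β with hJdef
  set T := tmat J β i₀ c with hTdef
  have hDc : (D : K) * c ≠ 0 := mul_ne_zero hD hc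
  have hJβ : J *ᵥ β = ((D : K) * c) • β := by
    funext i
    have := jac_mulVec_self hG β i
    rw [Matrix.mulVec, dotProduct, this, hfix]
    simp only [Pi.smul_apply, smul_eq_mul]
    ring
  -- the tangent space
  have hβT : ∀ g ∈ H, ∑ j, eval β (pderiv j g) * β j = 0 := by
    intro g hg
    have hg' := hg
    rw [hH] at hg'
    obtain ⟨⟨e, he⟩, -⟩ := hg'
    have := jac_mulVec_self (G := fun _ : σ => g) (fun _ => he) β i₀
    simp only [jac, Matrix.of_apply] at this
    rw [this, hHβ g hg, mul_zero]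
  have hJT : ∀ v : σ → K, (∀ g ∈ H, ∑ j, eval β (pderiv j g) * v j = 0) →
      ∀ g ∈ H, ∑ j, eval β (pderiv j g) * (J *ᵥ v) j = 0 := by
    intro v hv g hg
    have hg' := hg
    rw [hH] at hg'
    obtain ⟨⟨e, he⟩, hgy⟩ := hg'
    have h1 : aeval G g ∈ H := by
      rw [hH]
      refine ⟨⟨D * e, he.aeval G hG⟩, fun n => ?_⟩
      rw [eval_aeval_aux]
      have := hgy (n + 1)
      rwa [hy] at this
    have h2 := hv _ h1
    have h3 : ∀ j, eval β (pderiv j (aeval G g))
        = c ^ (e - 1) * ∑ k, eval β (pderiv k g) * J k j := by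
      intro j
      rw [pderiv_aeval_aux]
      have h4 : (fun l => eval β (G l)) = c • β := by
        funext l
        rw [hfix]
        rfl
      rw [h4, Finset.mul_sum]
      refine Finset.sum_congr rfl fun k _ => ?_
      rw [eval_smul_form (he.pderiv (i := k)), mul_assoc]
      rfl
    have h5 : ∑ j, eval β (pderiv j (aeval G g)) * v j
        = c ^ (e - 1) * ∑ k, eval β (pderiv k g) * (J *ᵥ v) k := by
      simp only [h3, Matrix.mulVec, dotProduct]
      simp only [Finset.mul_sum, Finset.sum_mul]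
      rw [Finset.sum_comm]
      refine Finset.sum_congr rfl fun k _ => Finset.sum_congr rfl fun j _ => ?_
      ring
    rw [h5] at h2
    exact (mul_eq_zero.1 h2).resolve_left (pow_ne_zero _ hc)
  set W : Submodule K (Module.Dual K ({j : σ // j ≠ i₀} → K)) :=
    Submodule.span K ((fun g => (dif β g) ∘ₗ extzL i₀) '' H) with hW
  set U : Submodule K ({j : σ // j ≠ i₀} → K) := W.dualCoannihilator with hU
  have hUmem : ∀ u, u ∈ U ↔ ∀ g ∈ H, ∑ j, eval β (pderiv j g) * extz i₀ u j = 0 := by
    intro u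
    rw [hU, Submodule.mem_dualCoannihilator]
    constructor
    · intro h g hg
      exact h _ (Submodule.subset_span ⟨g, hg, rfl⟩)
    · intro h φ hφ
      have : W ≤ LinearMap.ker ((LinearMap.applyₗ u : Module.Dual K _ →ₗ[K] K)) := by
        rw [hW, Submodule.span_le]
        rintro _ ⟨g, hg, rfl⟩
        exact h g hg
      exact this hφ
  have hTU : ∀ u ∈ U, T *ᵥ u ∈ U := by
    intro u hu
    rw [hUmem] at hu ⊢
    intro g hg
    have h1 := hJT _ hu g hg
    have h2 := hβT g hg
    rw [hTdef, extz_tmat' J β i₀ hβ c]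
    simp only [Pi.smul_apply, Pi.sub_apply, smul_eq_mul]
    have h3 : ∀ j, eval β (pderiv j g) * (c⁻¹ * ((J *ᵥ extz i₀ u) j - (J *ᵥ extz i₀ u) i₀ * β j))
        = c⁻¹ * (eval β (pderiv j g) * (J *ᵥ extz i₀ u) j)
          - c⁻¹ * (J *ᵥ extz i₀ u) i₀ * (eval β (pderiv j g) * β j) := fun j => by ring
    rw [Finset.sum_congr rfl fun j _ => h3 j, Finset.sum_sub_distrib, ← Finset.mul_sum,
      ← Finset.mul_sum, h1, h2, mul_zero, mul_zero, sub_zero]
  -- linear forms vanishing on the tangent space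
  have hann : ∀ φ : Module.Dual K ({j : σ // j ≠ i₀} → K), (∀ u ∈ U, φ u = 0) →
      ∃ P : MvPolynomial {j : σ // j ≠ i₀} K, (∀ n, MvPolynomial.eval (x n) P = 0) ∧
      P - ∑ j, MvPolynomial.C (φ (Pi.single j 1)) * MvPolynomial.X j ∈ Sq _ K := by
    intro φ hφ
    have hφW : φ ∈ W := by
      have h1 : φ ∈ U.dualAnnihilator := by
        rw [Submodule.mem_dualAnnihilator]
        exact hφ
      rw [hU, Subspace.dualCoannihilator_dualAnnihilator_eq] at h1
      exact h1
    rw [hW] at hφW
    refine span_lin x _ ?_ φ hφW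
    rintro _ ⟨g, hg, rfl⟩
    have hg' := hg
    rw [hH] at hg'
    obtain ⟨⟨e, he⟩, hgy⟩ := hg'
    set yy : σ → MvPolynomial {j : σ // j ≠ i₀} K := fun i =>
      if h : i = i₀ then 0 else MvPolynomial.X ⟨i, h⟩ with hyy
    refine ⟨aeval (fun i => algebraMap K (MvPolynomial {j : σ // j ≠ i₀} K) (β i) + yy i) g,
      fun n => ?_, ?_⟩
    · rw [eval_aeval_aux]
      have h1 : (fun i => eval (x n)
          (algebraMap K (MvPolynomial {j : σ // j ≠ i₀} K) (β i) + yy i))
          = β + extz i₀ (x n) := by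
        funext i
        by_cases h : i = i₀
        · simp [hyy, h, extz, MvPolynomial.algebraMap_eq]
        · simp [hyy, h, extz, MvPolynomial.algebraMap_eq]
      rw [h1]
      have h2 := hgy n
      rw [hyx, eval_smul_form he] at h2
      exact (mul_eq_zero.1 h2).resolve_left (pow_ne_zero _ (hμ n))
    · have h1 := taylor_sq (A := MvPolynomial {j : σ // j ≠ i₀} K)
        (Ideal.span (Set.range (MvPolynomial.X : {j : σ // j ≠ i₀} → _))) yy (by
          intro i
          by_cases h : i = i₀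
          · simp [hyy, h]
          · simp only [hyy, h, dif_neg, not_false_eq_true]
            exact Ideal.subset_span ⟨_, rfl⟩) β g
      rw [hHβ g hg, map_zero, sub_zero] at h1
      have hsum : ∑ j, MvPolynomial.C (((dif β g) ∘ₗ extzL i₀) (Pi.single j 1))
            * (MvPolynomial.X j : MvPolynomial {j : σ // j ≠ i₀} K)
          = ∑ l, algebraMap K (MvPolynomial {j : σ // j ≠ i₀} K)
            (eval β (pderiv l g)) * yy l := by
        have h2 := Finset.add_sum_erase Finset.univ (fun l =>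
          algebraMap K (MvPolynomial {j : σ // j ≠ i₀} K) (eval β (pderiv l g)) * yy l)
          (Finset.mem_univ i₀)
        have h3 : ∑ l ∈ Finset.univ.erase i₀,
            algebraMap K (MvPolynomial {j : σ // j ≠ i₀} K) (eval β (pderiv l g)) * yy l
            = ∑ l : {j : σ // j ≠ i₀},
            algebraMap K (MvPolynomial {j : σ // j ≠ i₀} K) (eval β (pderiv l.1 g)) * yy l.1 :=
          Finset.sum_subtype (Finset.univ.erase i₀) (by intro l; simp) _
        have h4 : yy i₀ = 0 := by simp [hyy]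
        rw [← h2, h3, h4, mul_zero, zero_add]
        refine Finset.sum_congr rfl fun j _ => ?_
        have h5 : yy j.1 = MvPolynomial.X j := by simp [hyy, j.2]
        have h6 : ((dif β g) ∘ₗ extzL i₀) (Pi.single j 1) = eval β (pderiv j.1 g) := by
          show ∑ l, eval β (pderiv l g) * extz i₀ (Pi.single j 1) l = _
          rw [sum_extz']
          simp [Pi.single_apply]
        rw [h5, h6, MvPolynomial.algebraMap_eq]
      rw [hsum]
      exact h1
  -- the kernel of the square
  have hTT : ∀ u ∈ U, T *ᵥ (T *ᵥ u) = 0 → ∃ t : K, (J ^ 2) *ᵥ (extz i₀ u - t • β) = 0 ∧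
      ∀ g ∈ H, ∑ j, eval β (pderiv j g) * (extz i₀ u - t • β) j = 0 := by
    intro u huU hu
    have h0 : extz i₀ (T *ᵥ (T *ᵥ u)) = 0 := by
      rw [hu]
      funext j
      by_cases h : j = i₀ <;> simp [extz, h]
    rw [hTdef, extz_tmat' J β i₀ hβ c, extz_tmat' J β i₀ hβ c] at h0
    set Y := J *ᵥ extz i₀ u with hY
    have h1 : J *ᵥ (c⁻¹ • (Y - Y i₀ • β)) = c⁻¹ • (J *ᵥ Y - (Y i₀ * ((D : K) * c)) • β) := by
      rw [Matrix.mulVec_smul, Matrix.mulVec_sub, Matrix.mulVec_smul, hJβ, smul_smul]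
    rw [h1] at h0
    have h2 : J *ᵥ Y = (J *ᵥ Y) i₀ • β := by
      have h3 := (smul_eq_zero.1 h0).resolve_left (inv_ne_zero hc)
      funext j
      have h4 := congrFun h3 j
      simp only [Pi.sub_apply, Pi.smul_apply, smul_eq_mul, Pi.zero_apply, hβ, mul_one] at h4 ⊢
      have h5 := (mul_eq_zero.1 (show c⁻¹ * ((J *ᵥ Y) j - (J *ᵥ Y) i₀ * β j) = 0 by
        linear_combination h4)).resolve_left (inv_ne_zero hc)
      linear_combination h5
    set s := (J *ᵥ Y) i₀ with hs
    refine ⟨s * (((D : K) * c) * ((D : K) * c))⁻¹, ?_, ?_⟩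
    · rw [pow_two, ← Matrix.mulVec_mulVec, Matrix.mulVec_sub, Matrix.mulVec_smul, hJβ, ← hY,
        smul_smul, Matrix.mulVec_sub, Matrix.mulVec_smul, hJβ, smul_smul, h2, ← sub_smul]
      have : s - s * ((D : K) * c * ((D : K) * c))⁻¹ * ((D : K) * c) * ((D : K) * c) = 0 := by
        field_simp
        ring
      rw [this, zero_smul]
    · intro g hg
      have h3 := (hUmem u).1 huU g hg
      have h4 := hβT g hg
      simp only [Pi.sub_apply, Pi.smul_apply, smul_eq_mul, mul_sub, Finset.sum_sub_distrib]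
      rw [h3, zero_sub, neg_eq_zero]
      have : ∀ j, eval β (pderiv j g) * (s * (((D : K) * c) * ((D : K) * c))⁻¹ * β j)
          = s * (((D : K) * c) * ((D : K) * c))⁻¹ * (eval β (pderiv j g) * β j) :=
        fun j => by ring
      rw [Finset.sum_congr rfl fun j _ => this j, ← Finset.mul_sum, h4, mul_zero]
  refine modify T Q hQ x hrec U hTU hann ?_
  intro u hu v hv hu2 hv2 hu0
  obtain ⟨t, ht1, ht2⟩ := hTT u hu hu2
  obtain ⟨t', ht'1, ht'2⟩ := hTT v hv hv2
  obtain ⟨r, s, hrs, h⟩ := hker _ _ ht2 ht'2 ht1 ht'1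
  have h0 := congrFun h i₀
  simp only [Pi.add_apply, Pi.smul_apply, Pi.sub_apply, smul_eq_mul, extz_self', hβ, mul_one,
    zero_sub, Pi.zero_apply] at h0
  have h1 : r • u + s • v = 0 := by
    funext j
    have h2 := congrFun h j
    simp only [Pi.add_apply, Pi.smul_apply, Pi.sub_apply, smul_eq_mul, extz_coe',
      Pi.zero_apply] at h2 ⊢
    linear_combination h2 - β j * h0
  have hs : s ≠ 0 := by
    intro hs
    rw [hs, zero_smul, add_zero] at h1
    rcases smul_eq_zero.1 h1 with h2 | h2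
    · rcases hrs with h3 | h3
      · exact h3 h2
      · exact h3 hs
    · exact hu0 h2
  refine ⟨-(r / s), ?_⟩
  have h2 : v = s⁻¹ • (s • v) := by rw [smul_smul, inv_mul_cancel₀ hs, one_smul]
  have h3 : s • v = -(r • u) := by
    rw [eq_neg_iff_add_eq_zero, add_comm]
    exact h1
  rw [h2, h3, smul_neg, smul_smul, neg_smul]
  congr 2
  field_simp

end

end Pool.Agent.Helper33.SS
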